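import Mathlib

set_option autoImplicit false

namespace Pool.Agent.H312Fac

/-- atoms true at `(a, b)` remain true at `(a', b')` -/
def R (a b a' b' : ℕ) : Prop :=
  (a + 1 = b → a' + 1 = b') ∧ (Nat.factorial a = b → Nat.factorial a' = b') ∧
    (¬ a ∣ b → ¬ a' ∣ b')

def Pres {n : ℕ} (x y : Fin n → ℕ) : Prop :=
  (∀ i, 1 ≤ y i) ∧ ∀ i k, R (x i) (x k) (y i) (y k)

theorem fact_gt {a : ℕ} (h : 3 ≤ a) : a + 2 < Nat.factorial a := by
  induction a, h using Nat.le_induction with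
  | base => decide
  | succ n hn ih =>
    rw [Nat.factorial_succ]
    nlinarith

theorem fact_ge (a : ℕ) : a ≤ Nat.factorial a := Nat.self_le_factorial a

theorem R_desc {a b a' b' : ℕ} (h : a < b) (ha' : 1 ≤ a') (h' : a' < b') : R b a b' a' := by
  refine ⟨fun h1 => by omega, fun h1 => ?_, fun _ h2 => ?_⟩
  · have := fact_ge b; omega
  · have := Nat.le_of_dvd ha' h2; omega

theorem R_self {a : ℕ} (h : 3 ≤ a) (a' : ℕ) : R a a a' a' := by
  refine ⟨fun h1 => by omega, fun h1 => ?_, fun h2 => absurd (dvd_refl a) h2⟩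
  have := fact_gt h; omega

theorem R_refl (a b : ℕ) : R a b a b := ⟨id, id, id⟩

/-- ascending pair with no positive atom, new right entry a large prime -/
theorem R_prime {a b q : ℕ} (h1 : a + 1 ≠ b) (h2 : Nat.factorial a ≠ b) (hq : q.Prime)
    (hqa : a < q) : R a b a q := by
  refine ⟨fun h => absurd h h1, fun h => absurd h h2, fun h3 h4 => ?_⟩
  rcases (Nat.dvd_prime hq).1 h4 with h5 | h5
  · exact h3 (h5 ▸ one_dvd _)
  · omega

theorem R_prime' {a b q : ℕ} (hb : 1 ≤ b) (h1 : a + 1 ≠ b) (h2 : Nat.factorial a ≠ b)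
    (hqa : b < q) : R a b q b := by
  refine ⟨fun h => absurd h h1, fun h => absurd h h2, fun _ h4 => ?_⟩
  have := Nat.le_of_dvd hb h4; omega

theorem not_dvd_succ {t : ℕ} (h : 2 ≤ t) : ¬ t ∣ t + 1 := by
  intro h1
  have h2 : t ∣ 1 := (Nat.dvd_add_right (dvd_refl t)).1 h1
  have := Nat.le_of_dvd one_pos h2
  omega

theorem not_dvd_succ2 {t : ℕ} (h : 3 ≤ t) : ¬ t ∣ t + 2 := by
  intro h1
  have h2 : t ∣ 2 := (Nat.dvd_add_right (dvd_refl t)).1 h1
  have := Nat.le_of_dvd two_pos h2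
  omega

/-- ascending pair `(t, t+1)` -/
theorem R_succ {a b t : ℕ} (hab : a + 1 = b) (ha : 3 ≤ a) (ht : 2 ≤ t) : R a b t (t + 1) := by
  refine ⟨fun _ => rfl, fun h => ?_, fun _ => not_dvd_succ ht⟩
  have := fact_gt ha; omega

/-- ascending pair `(t, t!)` -/
theorem R_fact {a b t : ℕ} (hab : Nat.factorial a = b) (ha : 3 ≤ a) :
    R a b t (Nat.factorial t) := by
  refine ⟨fun h => ?_, fun _ => rfl, fun h => absurd ?_ h⟩
  · have := fact_gt ha; omega
  · rw [← hab]; exact Nat.dvd_factorial (by omega) le_rfl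

end Pool.Agent.H312Fac
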