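import Mathlib
import Pool.Agent.H312Fac.Core

set_option autoImplicit false

namespace Pool.Agent.H312Fac

theorem R_vac {a b a' b' : ℕ} (h1 : a + 1 ≠ b) (h2 : Nat.factorial a ≠ b) (h3 : a ∣ b) :
    R a b a' b' := ⟨fun h => absurd h h1, fun h => absurd h h2, fun h => absurd h3 h⟩

theorem R_nd {a b a' b' : ℕ} (h1 : a + 1 ≠ b) (h2 : Nat.factorial a ≠ b) (h3 : ¬ a' ∣ b') :
    R a b a' b' := ⟨fun h => absurd h h1, fun h => absurd h h2, fun _ => h3⟩

theorem R_shift {a b k : ℕ} (h1 : a + 1 ≠ b) (h2 : Nat.factorial a ≠ b) (hk : a ∣ k) :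
    R a b a (b + k) :=
  ⟨fun h => absurd h h1, fun h => absurd h h2, fun h h3 => h ((Nat.dvd_add_left hk).1 h3)⟩

theorem nd_add {a m r : ℕ} (h : a ∣ m) (hr : 1 ≤ r) (hra : r < a) : ¬ a ∣ m + r := by
  intro h1
  have h2 := (Nat.dvd_add_right h).1 h1
  have := Nat.le_of_dvd (by omega) h2
  omega

theorem nd_sub {a m s r : ℕ} (h : a ∣ m) (hr : 1 ≤ r) (hra : r < a) (hs : s + r = m) :
    ¬ a ∣ s := by
  intro h1
  have h2 := (Nat.dvd_add_right h1).1 (hs ▸ h)
  have := Nat.le_of_dvd (by omega) h2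
  omega

theorem fact_lt {a b : ℕ} (ha : 1 ≤ a) (h : a < b) : Nat.factorial a < Nat.factorial b :=
  (Nat.factorial_lt ha).2 h

theorem fact_gap {a b : ℕ} (hb : 3 ≤ b) (h : a < b) :
    Nat.factorial a + 2 < Nat.factorial b ∨ (Nat.factorial a ≤ 2 ∧ Nat.factorial a + 1 < Nat.factorial b) := by
  have h1 : Nat.factorial a ≤ Nat.factorial (b - 1) := Nat.factorial_le (by omega)
  have h2 : Nat.factorial b = b * Nat.factorial (b - 1) := by
    conv_lhs => rw [show b = (b - 1) + 1 by omega, Nat.factorial_succ]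
    rw [show b - 1 + 1 = b by omega]
  have h3 : 3 * Nat.factorial (b - 1) ≤ b * Nat.factorial (b - 1) := Nat.mul_le_mul_right _ hb
  have h4 := Nat.factorial_pos a
  omega

theorem mul_dvd_fact {x y n : ℕ} (hx : 1 ≤ x) (hxy : x < y) (hy : y ≤ n) :
    x * y ∣ Nat.factorial n := by
  have h1 : x * y ∣ Nat.factorial y := by
    have h2 : Nat.factorial y = y * Nat.factorial (y - 1) := by
      conv_lhs => rw [show y = (y - 1) + 1 by omega, Nat.factorial_succ]
      rw [show y - 1 + 1 = y by omega]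
    rw [h2, mul_comm x y]
    exact Nat.mul_dvd_mul_left _ (Nat.dvd_factorial hx (by omega))
  exact h1.trans (Nat.factorial_dvd_factorial hy)

theorem even_dvd {m n : ℕ} (hm : 6 ≤ m) (he : 2 ∣ m) (hn : m ≤ 2 * n) : m ∣ Nat.factorial n := by
  obtain ⟨k, rfl⟩ := he
  exact mul_dvd_fact (by norm_num) (by omega) (by omega)

theorem prime_nd {q n : ℕ} (hq : q.Prime) (h : n < q) : ¬ q ∣ Nat.factorial n := by
  intro h1
  have := (Nat.Prime.dvd_factorial hq).1 h1
  omega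

/-- there is a solution with larger entries in which the same atoms hold -/
def Ex (N a b c d : ℕ) : Prop := ∃ a' b' c' d', (1 ≤ a' ∧ 1 ≤ b' ∧ 1 ≤ c' ∧ 1 ≤ d') ∧
  (R a a a' a' ∧ R a b a' b' ∧ R a c a' c' ∧ R a d a' d') ∧
  (R b a b' a' ∧ R b b b' b' ∧ R b c b' c' ∧ R b d b' d') ∧
  (R c a c' a' ∧ R c b c' b' ∧ R c c c' c' ∧ R c d c' d') ∧
  (R d a d' a' ∧ R d b d' b' ∧ R d c d' c' ∧ R d d d' d') ∧
  (N < a' ∨ N < b' ∨ N < c' ∨ N < d')

theorem mk_inc {N a b c d a' b' c' d' : ℕ} (hab : a < b) (hbc : b < c) (hcd : c < d) (hb : 3 ≤ b)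
    (ha' : 1 ≤ a') (hab' : a' < b') (hbc' : b' < c') (hcd' : c' < d') (hN : N < d')
    (h0 : R a a a' a') (h1 : R a b a' b') (h2 : R a c a' c') (h3 : R a d a' d')
    (h4 : R b c b' c') (h5 : R b d b' d') (h6 : R c d c' d') : Ex N a b c d :=
  ⟨a', b', c', d', ⟨by omega, by omega, by omega, by omega⟩, ⟨h0, h1, h2, h3⟩,
    ⟨R_desc hab ha' hab', R_self hb _, h4, h5⟩,
    ⟨R_desc (by omega) ha' (by omega), R_desc hbc (by omega) hbc', R_self (by omega) _, h6⟩,
    ⟨R_desc (by omega) ha' (by omega), R_desc (by omega) (by omega) (by omega),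
      R_desc hcd (by omega) hcd', R_self (by omega) _⟩, by omega⟩

theorem repl_a {N a b c d : ℕ} (hab : a < b) (hbc : b < c) (hcd : c < d) (ha : 3 ≤ a)
    (h1 : a + 1 ≠ b) (h2 : Nat.factorial a ≠ b) (h3 : Nat.factorial a ≠ c)
    (h4 : Nat.factorial a ≠ d) : Ex N a b c d := by
  obtain ⟨q, hqN, hq⟩ := Nat.exists_infinite_primes (N + d + 10)
  have g1 := fact_ge b
  have g2 := fact_ge c
  have g3 := fact_ge d
  exact ⟨q, b, c, d, ⟨by omega, by omega, by omega, by omega⟩,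
    ⟨R_self ha _, R_prime' (by omega) h1 h2 (by omega),
      R_prime' (by omega) (by omega) h3 (by omega), R_prime' (by omega) (by omega) h4 (by omega)⟩,
    ⟨R_prime (by omega) (by omega) hq (by omega), R_refl _ _, R_refl _ _, R_refl _ _⟩,
    ⟨R_prime (by omega) (by omega) hq (by omega), R_refl _ _, R_refl _ _, R_refl _ _⟩,
    ⟨R_prime (by omega) (by omega) hq (by omega), R_refl _ _, R_refl _ _, R_refl _ _⟩, by omega⟩

theorem repl_b {N a b c d : ℕ} (hab : a < b) (hbc : b < c) (hcd : c < d) (hb : 3 ≤ b)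
    (ha : 1 ≤ a) (h1 : a + 1 ≠ b) (h2 : Nat.factorial a ≠ b) (h0 : b + 1 ≠ c)
    (h3 : Nat.factorial b ≠ c) (h4 : Nat.factorial b ≠ d) : Ex N a b c d := by
  obtain ⟨q, hqN, hq⟩ := Nat.exists_infinite_primes (N + d + 10)
  have g1 := fact_gt hb
  have g2 := fact_ge c
  have g3 := fact_ge d
  exact ⟨a, q, c, d, ⟨by omega, by omega, by omega, by omega⟩,
    ⟨R_refl _ _, R_prime h1 h2 hq (by omega), R_refl _ _, R_refl _ _⟩,
    ⟨R_prime' ha (by omega) (by omega) (by omega), R_self hb _,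
      R_prime' (by omega) h0 h3 (by omega), R_prime' (by omega) (by omega) h4 (by omega)⟩,
    ⟨R_refl _ _, R_prime (by omega) (by omega) hq (by omega), R_refl _ _, R_refl _ _⟩,
    ⟨R_refl _ _, R_prime (by omega) (by omega) hq (by omega), R_refl _ _, R_refl _ _⟩, by omega⟩

theorem repl_c {N a b c d : ℕ} (hab : a < b) (hbc : b < c) (hcd : c < d) (hc : 3 ≤ c)
    (ha : 1 ≤ a) (h1 : b + 1 ≠ c) (h2 : Nat.factorial a ≠ c) (h3 : Nat.factorial b ≠ c)
    (h0 : c + 1 ≠ d) (h4 : Nat.factorial c ≠ d) : Ex N a b c d := by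
  obtain ⟨q, hqN, hq⟩ := Nat.exists_infinite_primes (N + d + 10)
  have g2 := fact_gt hc
  have g3 := fact_ge d
  exact ⟨a, b, q, d, ⟨by omega, by omega, by omega, by omega⟩,
    ⟨R_refl _ _, R_refl _ _, R_prime (by omega) h2 hq (by omega), R_refl _ _⟩,
    ⟨R_refl _ _, R_refl _ _, R_prime h1 h3 hq (by omega), R_refl _ _⟩,
    ⟨R_prime' ha (by omega) (by omega) (by omega), R_prime' (by omega) (by omega) (by omega)
      (by omega), R_self hc _, R_prime' (by omega) h0 h4 (by omega)⟩,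
    ⟨R_refl _ _, R_refl _ _, R_prime (by omega) (by omega) hq (by omega), R_refl _ _⟩, by omega⟩

theorem repl_d {N a b c d : ℕ} (hab : a < b) (hbc : b < c) (hcd : c < d) (hc : 3 ≤ d)
    (ha : 1 ≤ a) (h1 : c + 1 ≠ d) (h2 : Nat.factorial a ≠ d) (h3 : Nat.factorial b ≠ d)
    (h4 : Nat.factorial c ≠ d) : Ex N a b c d := by
  obtain ⟨q, hqN, hq⟩ := Nat.exists_infinite_primes (N + d + 10)
  have g3 := fact_gt hc
  exact ⟨a, b, c, q, ⟨by omega, by omega, by omega, by omega⟩,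
    ⟨R_refl _ _, R_refl _ _, R_refl _ _, R_prime (by omega) h2 hq (by omega)⟩,
    ⟨R_refl _ _, R_refl _ _, R_refl _ _, R_prime (by omega) h3 hq (by omega)⟩,
    ⟨R_refl _ _, R_refl _ _, R_refl _ _, R_prime h1 h4 hq (by omega)⟩,
    ⟨R_prime' ha (by omega) (by omega) (by omega), R_prime' (by omega) (by omega) (by omega)
      (by omega), R_prime' (by omega) (by omega) (by omega) (by omega), R_self hc _⟩, by omega⟩

end Pool.Agent.H312Fac
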