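import Mathlib
import Pool.Agent.H312Fac.Core4

set_option autoImplicit false

namespace Pool.Agent.H312Fac

theorem three_le_of_fact {a m : ℕ} (ha : 1 ≤ a) (h : Nat.factorial a = m) (hm : 3 ≤ m) : 3 ≤ a := by
  by_contra h1
  have : a = 1 ∨ a = 2 := by omega
  rcases this with rfl | rfl <;> simp [Nat.factorial] at h <;> omega

theorem seven_le_of_fact {a m : ℕ} (h : Nat.factorial a = m) (hm : 720 < m) : 7 ≤ a := by
  by_contra h1
  have h2 : Nat.factorial a ≤ Nat.factorial 6 := Nat.factorial_le (by omega)
  have h3 : Nat.factorial 6 = 720 := by decide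
  omega

theorem six_le_of_fact {a m : ℕ} (h : Nat.factorial a = m) (hm : 120 < m) : 6 ≤ a := by
  by_contra h1
  have h2 : Nat.factorial a ≤ Nat.factorial 5 := Nat.factorial_le (by omega)
  have h3 : Nat.factorial 5 = 120 := by decide
  omega

theorem self_dvd_fact {a n : ℕ} (ha : 1 ≤ a) (h : a ≤ n) : a ∣ Nat.factorial n :=
  Nat.dvd_factorial (by omega) h

theorem fact_gt3 {a : ℕ} (h : 4 ≤ a) : a + 10 < Nat.factorial a := by
  induction a, h using Nat.le_induction with
  | base => decide
  | succ n hn ih =>
    rw [Nat.factorial_succ]
    nlinarith

theorem caseA1 {N a b c d : ℕ} (ha : 1 ≤ a) (hab : a < b) (hbc : b < c) (hd : 720 < d)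
    (hcd : c + 1 = d) (h : b + 1 = c) : Ex N a b c d := by
  have hgb := fact_gt (show 3 ≤ b by omega)
  by_cases h1 : a + 1 = b
  · have hga := fact_gt3 (show 4 ≤ a by omega)
    exact mk_inc (a' := a + N) (b' := a + N + 1) (c' := a + N + 1 + 1) (d' := a + N + 1 + 1 + 1)
      hab hbc (by omega) (by omega) (by omega) (by omega) (by omega) (by omega) (by omega)
      (R_self (by omega) _) (R_succ h1 (by omega) (by omega))
      (R_nd (by omega) (by omega) (nd_add (m := a + N) (r := 2) dvd_rfl (by omega) (by omega)))
      (R_nd (by omega) (by omega) (nd_add (m := a + N) (r := 3) dvd_rfl (by omega) (by omega)))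
      (R_succ h (by omega) (by omega))
      (R_nd (by omega) (by omega) (nd_add (m := a + N + 1) (r := 2) dvd_rfl (by omega) (by omega)))
      (R_succ hcd (by omega) (by omega))
  · by_cases h2 : Nat.factorial a = b
    · have ha3 := six_le_of_fact h2 (by omega)
      have hga := fact_gt3 (show 4 ≤ a by omega)
      have hgt := fact_gt3 (show 4 ≤ a + N by omega)
      have hdv := self_dvd_fact (show 1 ≤ a + N by omega) le_rfl
      exact mk_inc (a' := a + N) (b' := Nat.factorial (a + N)) (c' := Nat.factorial (a + N) + 1)
        (d' := Nat.factorial (a + N) + 1 + 1)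
        hab hbc (by omega) (by omega) (by omega) (by omega) (by omega) (by omega) (by omega)
        (R_self (by omega) _) (R_fact h2 (by omega))
        (R_nd (by omega) (by omega) (nd_add hdv (by omega) (by omega)))
        (R_nd (by omega) (by omega) (nd_add (r := 2) hdv (by omega) (by omega)))
        (R_succ h (by omega) (by omega))
        (R_nd (by omega) (by omega) (nd_add (m := Nat.factorial (a + N)) (r := 2) dvd_rfl
          (by omega) (by omega)))
        (R_succ hcd (by omega) (by omega))
    · by_cases h3 : Nat.factorial a = c
      · have ha3 := six_le_of_fact h3 (by omega)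
        have hga := fact_gt3 (show 4 ≤ a by omega)
        have hgt := fact_gt3 (show 4 ≤ a + N by omega)
        have hdv := self_dvd_fact (show 1 ≤ a + N by omega) le_rfl
        obtain ⟨s, hs⟩ : ∃ s, Nat.factorial (a + N) = s + 1 := ⟨Nat.factorial (a + N) - 1, by omega⟩
        have hfa : R a c (a + N) (s + 1) := hs ▸ R_fact h3 (by omega)
        exact mk_inc (a' := a + N) (b' := s) (c' := s + 1)
          (d' := s + 1 + 1)
          hab hbc (by omega) (by omega) (by omega) (by omega) (by omega) (by omega) (by omega)
          (R_self (by omega) _)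
          (R_nd (by omega) (by omega) (nd_sub (r := 1) hdv (by omega) (by omega) (by omega)))
          hfa
          (R_nd (by omega) (by omega) (nd_add (m := s + 1) (r := 1) (hs ▸ hdv) (by omega)
            (by omega)))
          (R_succ h (by omega) (by omega))
          (R_nd (by omega) (by omega) (nd_add (m := s) (r := 2) dvd_rfl
            (by omega) (by omega)))
          (R_succ hcd (by omega) (by omega))
      · by_cases h4 : Nat.factorial a = d
        · have ha3 := six_le_of_fact h4 (by omega)
          have hga := fact_gt3 (show 4 ≤ a by omega)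
          have hgt := fact_gt3 (show 4 ≤ a + N by omega)
          have hdv := self_dvd_fact (show 1 ≤ a + N by omega) le_rfl
          obtain ⟨s, hs⟩ : ∃ s, Nat.factorial (a + N) = s + 1 + 1 :=
            ⟨Nat.factorial (a + N) - 2, by omega⟩
          have hfa : R a d (a + N) (s + 1 + 1) := hs ▸ R_fact h4 (by omega)
          exact mk_inc (a' := a + N) (b' := s) (c' := s + 1)
            (d' := s + 1 + 1)
            hab hbc (by omega) (by omega) (by omega) (by omega) (by omega) (by omega) (by omega)
            (R_self (by omega) _)
            (R_nd (by omega) (by omega) (nd_sub (r := 2) hdv (by omega) (by omega) (by omega)))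
            (R_nd (by omega) (by omega) (nd_sub (r := 1) hdv (by omega) (by omega) (by omega)))
            hfa
            (R_succ h (by omega) (by omega))
            (R_nd (by omega) (by omega) (nd_add (m := s) (r := 2) dvd_rfl
              (by omega) (by omega)))
            (R_succ hcd (by omega) (by omega))
        · have hN : N ≤ a * N := Nat.le_mul_of_pos_left N ha
          have hk : a ∣ a * N := Dvd.intro _ rfl
          have e2 : c + a * N = b + a * N + 1 := by omega
          have e3 : d + a * N = b + a * N + 1 + 1 := by omega
          have r2 : R a c a (b + a * N + 1) := e2 ▸ R_shift (by omega) h3 hk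
          have r3 : R a d a (b + a * N + 1 + 1) := e3 ▸ R_shift (by omega) h4 hk
          exact mk_inc (a' := a) (b' := b + a * N) (c' := b + a * N + 1)
            (d' := b + a * N + 1 + 1)
            hab hbc (by omega) (by omega) (by omega) (by omega) (by omega) (by omega) (by omega)
            (R_refl _ _) (R_shift h1 h2 hk) r2 r3
            (R_succ h (by omega) (by omega))
            (R_nd (by omega) (by omega) (nd_add (m := b + a * N) (r := 2) dvd_rfl
              (by omega) (by omega)))
            (R_succ hcd (by omega) (by omega))

theorem caseA2 {N a b c d : ℕ} (ha : 1 ≤ a) (hab : a < b) (hbc : b < c) (hd : 720 < d)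
    (hcd : c + 1 = d) (h0 : b + 1 ≠ c) (h : Nat.factorial b = c) : Ex N a b c d := by
  have hb6 := six_le_of_fact h (by omega)
  have hgb := fact_gt3 (show 4 ≤ b by omega)
  have hfab := fact_lt ha hab
  have hac : a ∣ c := h ▸ self_dvd_fact ha (by omega)
  by_cases h1 : a + 1 = b
  · have hgt := fact_gt3 (show 4 ≤ a + N + 1 by omega)
    have hdv := self_dvd_fact (show 1 ≤ a + N by omega) (show a + N ≤ a + N + 1 by omega)
    have hdv2 := self_dvd_fact (show 1 ≤ a + N + 1 by omega) le_rfl
    exact mk_inc (a' := a + N) (b' := a + N + 1) (c' := Nat.factorial (a + N + 1))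
      (d' := Nat.factorial (a + N + 1) + 1)
      hab hbc (by omega) (by omega) (by omega) (by omega) (by omega) (by omega) (by omega)
      (R_self (by omega) _) (R_succ h1 (by omega) (by omega))
      (R_vac (by omega) (by omega) hac)
      (R_nd (by omega) (by omega) (nd_add hdv (by omega) (by omega)))
      (R_fact h (by omega))
      (R_nd (by omega) (by omega) (nd_add hdv2 (by omega) (by omega)))
      (R_succ hcd (by omega) (by omega))
  · by_cases h2 : Nat.factorial a = b
    · have ha3 := three_le_of_fact ha h2 (by omega)
      have hga := fact_gt ha3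
      have hgt := fact_gt (show 3 ≤ a + N by omega)
      have hgt2 := fact_gt3 (show 4 ≤ Nat.factorial (a + N) by omega)
      have hdv := self_dvd_fact (show 1 ≤ a + N by omega) (show a + N ≤ Nat.factorial (a + N) by omega)
      have hdv2 := self_dvd_fact (show 1 ≤ Nat.factorial (a + N) by omega) le_rfl
      exact mk_inc (a' := a + N) (b' := Nat.factorial (a + N))
        (c' := Nat.factorial (Nat.factorial (a + N)))
        (d' := Nat.factorial (Nat.factorial (a + N)) + 1)
        hab hbc (by omega) (by omega) (by omega) (by omega) (by omega) (by omega) (by omega)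
        (R_self (by omega) _) (R_fact h2 (by omega))
        (R_vac (by omega) (by omega) hac)
        (R_nd (by omega) (by omega) (nd_add hdv (by omega) (by omega)))
        (R_fact h (by omega))
        (R_nd (by omega) (by omega) (nd_add hdv2 (by omega) (by omega)))
        (R_succ hcd (by omega) (by omega))
    · have hN : N ≤ a * N := Nat.le_mul_of_pos_left N ha
      have hk : a ∣ a * N := Dvd.intro _ rfl
      have hgt2 := fact_gt3 (show 4 ≤ b + a * N by omega)
      have hdv := self_dvd_fact ha (show a ≤ b + a * N by omega)
      have hdv2 := self_dvd_fact (show 1 ≤ b + a * N by omega) le_rfl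
      have r3 : R a d a (Nat.factorial (b + a * N) + 1) := by
        by_cases ha1 : a = 1
        · exact R_vac (by omega) (by omega) (ha1 ▸ one_dvd _)
        · exact R_nd (by omega) (by omega) (nd_add hdv (by omega) (by omega))
      exact mk_inc (a' := a) (b' := b + a * N) (c' := Nat.factorial (b + a * N))
        (d' := Nat.factorial (b + a * N) + 1)
        hab hbc (by omega) (by omega) (by omega) (by omega) (by omega) (by omega) (by omega)
        (R_refl _ _) (R_shift h1 h2 hk)
        (R_vac (by omega) (by omega) hac) r3
        (R_fact h (by omega))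
        (R_nd (by omega) (by omega) (nd_add hdv2 (by omega) (by omega)))
        (R_succ hcd (by omega) (by omega))

theorem caseA3 {N a b c d : ℕ} (ha : 1 ≤ a) (hab : a < b) (hbc : b < c) (hd : 720 < d)
    (hcd : c + 1 = d) (h0 : b + 1 ≠ c) (h : Nat.factorial b = d) : Ex N a b c d := by
  have hb6 := seven_le_of_fact h (by omega)
  have hgb := fact_gt3 (show 4 ≤ b by omega)
  have hfab := fact_gap (show 3 ≤ b by omega) hab
  have had : a ∣ d := h ▸ self_dvd_fact ha (by omega)
  by_cases h1 : a + 1 = b
  · have hgt := fact_gt3 (show 4 ≤ a + N + 1 by omega)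
    have hdv := self_dvd_fact (show 1 ≤ a + N by omega) (show a + N ≤ a + N + 1 by omega)
    have hdv2 := self_dvd_fact (show 1 ≤ a + N + 1 by omega) le_rfl
    obtain ⟨s, hs⟩ : ∃ s, Nat.factorial (a + N + 1) = s + 1 :=
      ⟨Nat.factorial (a + N + 1) - 1, by omega⟩
    have hfb : R b d (a + N + 1) (s + 1) := hs ▸ R_fact h (by omega)
    exact mk_inc (a' := a + N) (b' := a + N + 1) (c' := s) (d' := s + 1)
      hab hbc (by omega) (by omega) (by omega) (by omega) (by omega) (by omega) (by omega)
      (R_self (by omega) _) (R_succ h1 (by omega) (by omega))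
      (R_nd (by omega) (by omega) (nd_sub (r := 1) hdv (by omega) (by omega) (by omega)))
      (R_vac (by omega) (by omega) had)
      (R_nd (by omega) (by omega) (nd_sub (r := 1) hdv2 (by omega) (by omega) (by omega)))
      hfb
      (R_succ hcd (by omega) (by omega))
  · by_cases h2 : Nat.factorial a = b
    · have ha3 := three_le_of_fact ha h2 (by omega)
      have hga := fact_gt ha3
      have hgt := fact_gt (show 3 ≤ a + N by omega)
      have hgt2 := fact_gt3 (show 4 ≤ Nat.factorial (a + N) by omega)
      have hdv := self_dvd_fact (show 1 ≤ a + N by omega) (show a + N ≤ Nat.factorial (a + N) by omega)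
      have hdv2 := self_dvd_fact (show 1 ≤ Nat.factorial (a + N) by omega) le_rfl
      obtain ⟨s, hs⟩ : ∃ s, Nat.factorial (Nat.factorial (a + N)) = s + 1 :=
        ⟨Nat.factorial (Nat.factorial (a + N)) - 1, by omega⟩
      have hfb : R b d (Nat.factorial (a + N)) (s + 1) := hs ▸ R_fact h (by omega)
      exact mk_inc (a' := a + N) (b' := Nat.factorial (a + N)) (c' := s) (d' := s + 1)
        hab hbc (by omega) (by omega) (by omega) (by omega) (by omega) (by omega) (by omega)
        (R_self (by omega) _) (R_fact h2 (by omega))
        (R_nd (by omega) (by omega) (nd_sub (r := 1) hdv (by omega) (by omega) (by omega)))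
        (R_vac (by omega) (by omega) had)
        (R_nd (by omega) (by omega) (nd_sub (r := 1) hdv2 (by omega) (by omega) (by omega)))
        hfb
        (R_succ hcd (by omega) (by omega))
    · have hN : N ≤ a * N := Nat.le_mul_of_pos_left N ha
      have hk : a ∣ a * N := Dvd.intro _ rfl
      have hgt2 := fact_gt3 (show 4 ≤ b + a * N by omega)
      have hdv := self_dvd_fact ha (show a ≤ b + a * N by omega)
      have hdv2 := self_dvd_fact (show 1 ≤ b + a * N by omega) le_rfl
      obtain ⟨s, hs⟩ : ∃ s, Nat.factorial (b + a * N) = s + 1 :=
        ⟨Nat.factorial (b + a * N) - 1, by omega⟩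
      have hfb : R b d (b + a * N) (s + 1) := hs ▸ R_fact h (by omega)
      have r3 : R a c a s := by
        by_cases ha1 : a = 1
        · exact R_vac (by omega) (by omega) (ha1 ▸ one_dvd _)
        · exact R_nd (by omega) (by omega) (nd_sub (r := 1) hdv (by omega) (by omega) (by omega))
      exact mk_inc (a' := a) (b' := b + a * N) (c' := s) (d' := s + 1)
        hab hbc (by omega) (by omega) (by omega) (by omega) (by omega) (by omega) (by omega)
        (R_refl _ _) (R_shift h1 h2 hk) r3
        (R_vac (by omega) (by omega) had)
        (R_nd (by omega) (by omega) (nd_sub (r := 1) hdv2 (by omega) (by omega) (by omega)))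
        hfb
        (R_succ hcd (by omega) (by omega))

theorem wilson {q m : ℕ} (hq : q.Prime) (hm : m + 1 = q) : q ∣ Nat.factorial m + 1 := by
  have : Fact q.Prime := ⟨hq⟩
  have h := ZMod.wilsons_lemma q
  have h2 : q - 1 = m := by omega
  rw [h2] at h
  rw [← CharP.cast_eq_zero_iff (ZMod q) q]
  push_cast
  rw [h]; ring

theorem caseA4 {N a b c d : ℕ} (ha : 1 ≤ a) (hab : a < b) (hbc : b < c) (hd : 720 < d)
    (hcd : c + 1 = d) (h0 : b + 1 ≠ c) (h1 : Nat.factorial b ≠ c) (h2 : Nat.factorial b ≠ d) :
    Ex N a b c d := by
  by_cases h3 : Nat.factorial a = c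
  · have ha6 := six_le_of_fact h3 (by omega)
    have hga := fact_gt3 (show 4 ≤ a by omega)
    by_cases h4 : a + 1 = b
    · by_cases h5 : b ∣ c
      · -- even `t + 1`
        have e : a + 1 + (a + 1) * (2 * N + 1) = 2 * ((a + 1) * (N + 1)) := by ring
        have hN : N ≤ (a + 1) * N := Nat.le_mul_of_pos_left N (by omega)
        have hm : (a + 1) * (N + 1) = (a + 1) * N + (a + 1) := by ring
        obtain ⟨t, ht⟩ : ∃ t, t + 1 = 2 * ((a + 1) * (N + 1)) :=
          ⟨2 * ((a + 1) * (N + 1)) - 1, by omega⟩
        have hgt := fact_gt3 (show 4 ≤ t by omega)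
        have hdv := self_dvd_fact (show 1 ≤ t by omega) le_rfl
        have hdv2 : t + 1 ∣ Nat.factorial t := even_dvd (by omega) ⟨_, ht⟩ (by omega)
        exact mk_inc (a' := t) (b' := t + 1) (c' := Nat.factorial t) (d' := Nat.factorial t + 1)
          hab hbc (by omega) (by omega) (by omega) (by omega) (by omega) (by omega) (by omega)
          (R_self (by omega) _) (R_succ h4 (by omega) (by omega))
          (R_fact h3 (by omega))
          (R_nd (by omega) (by omega) (nd_add hdv (by omega) (by omega)))
          (R_vac h0 h1 h5)
          (R_nd (by omega) h2 (nd_add hdv2 (by omega) (by omega)))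
          (R_succ hcd (by omega) (by omega))
      · obtain ⟨q, hqN, hq⟩ := Nat.exists_infinite_primes (N + d + 10)
        have hbp : b.Prime := by
          by_contra hnp
          have h6 : b ∣ Nat.factorial (b - 1) := by
            obtain ⟨m, hm, hm1, hm2⟩ := Nat.exists_dvd_of_not_prime2 (by omega) hnp
            obtain ⟨k, hk⟩ := hm
            have hk2 : 2 ≤ k := by
              by_contra hk3
              have : k = 0 ∨ k = 1 := by omega
              rcases this with rfl | rfl <;> omega
            rcases lt_trichotomy m k with h7 | h7 | h7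
            · rw [hk]
              refine mul_dvd_fact (by omega) h7 ?_
              have : 2 * k ≤ m * k := Nat.mul_le_mul_right _ hm1
              omega
            · subst h7
              -- b = m*m
              have hm3 : 3 ≤ m := by
                by_contra hm4
                have : m = 2 := by omega
                subst this
                omega
              have h8 : m * (2 * m) ∣ Nat.factorial (b - 1) := by
                refine mul_dvd_fact (by omega) (by omega) ?_
                have : 3 * m ≤ m * m := Nat.mul_le_mul_right _ hm3
                omega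
              rw [hk]
              rw [hk] at h8
              exact (Dvd.intro 2 (by ring)).trans h8
            · rw [hk, mul_comm]
              refine mul_dvd_fact (by omega) h7 ?_
              have : m * 2 ≤ m * k := Nat.mul_le_mul_left _ hk2
              have h10 : k * m = m * k := mul_comm k m
              omega
          rw [← h3] at h5
          have : b - 1 = a := by omega
          rw [this] at h6
          exact h5 h6
        have h9 : b ∣ d := by
          rw [← hcd, ← h3]
          exact wilson hbp h4
        obtain ⟨t, ht⟩ : ∃ t, t + 1 = q := ⟨q - 1, by omega⟩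
        have hgt := fact_gt3 (show 4 ≤ t by omega)
        have hdv := self_dvd_fact (show 1 ≤ t by omega) le_rfl
        have hnd : ¬ t + 1 ∣ Nat.factorial t := ht ▸ prime_nd hq (by omega)
        exact mk_inc (a' := t) (b' := t + 1) (c' := Nat.factorial t) (d' := Nat.factorial t + 1)
          hab hbc (by omega) (by omega) (by omega) (by omega) (by omega) (by omega) (by omega)
          (R_self (by omega) _) (R_succ h4 (by omega) (by omega))
          (R_fact h3 (by omega))
          (R_nd (by omega) (by omega) (nd_add hdv (by omega) (by omega)))
          (R_nd h0 h1 hnd)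
          (R_vac (by omega) h2 h9)
          (R_succ hcd (by omega) (by omega))
    · exact repl_b hab hbc (by omega) (by omega) ha h4 (by omega) h0 h1 h2
  · by_cases h4 : Nat.factorial a = d
    · have ha6 := seven_le_of_fact h4 (by omega)
      have hga := fact_gt3 (show 4 ≤ a by omega)
      by_cases h5 : a + 1 = b
      · obtain ⟨q, hqN, hq⟩ := Nat.exists_infinite_primes (N + d + 10)
        obtain ⟨t, ht⟩ : ∃ t, t + 1 = q := ⟨q - 1, by omega⟩
        have hgt := fact_gt3 (show 4 ≤ t by omega)
        have hdv := self_dvd_fact (show 1 ≤ t by omega) le_rfl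
        have hnd : ¬ t + 1 ∣ Nat.factorial t := ht ▸ prime_nd hq (by omega)
        have hw := wilson hq ht
        obtain ⟨s, hs⟩ : ∃ s, Nat.factorial t = s + 1 := ⟨Nat.factorial t - 1, by omega⟩
        have hfa : R a d t (s + 1) := hs ▸ R_fact h4 (by omega)
        have hnd2 : ¬ t + 1 ∣ s := by
          rw [ht]
          exact nd_sub (r := 2) hw (by omega) (by omega) (by omega)
        exact mk_inc (a' := t) (b' := t + 1) (c' := s) (d' := s + 1)
          hab hbc (by omega) (by omega) (by omega) (by omega) (by omega) (by omega) (by omega)
          (R_self (by omega) _) (R_succ h5 (by omega) (by omega))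
          (R_nd (by omega) (by omega) (nd_sub (r := 1) hdv (by omega) (by omega) (by omega)))
          hfa
          (R_nd h0 h1 hnd2)
          (R_nd (by omega) h2 (hs ▸ hnd))
          (R_succ hcd (by omega) (by omega))
      · exact repl_b hab hbc (by omega) (by omega) ha h5 (by omega) h0 h1 h2
    · have hN : N ≤ a * b * N := Nat.le_mul_of_pos_left N (Nat.mul_pos (by omega) (by omega))
      have hka : a ∣ a * b * N := Dvd.intro _ (mul_assoc a b N).symm
      have hkb : b ∣ a * b * N := (Dvd.intro_left a rfl).trans (Dvd.intro _ rfl)
      exact ⟨a, b, c + a * b * N, c + a * b * N + 1, ⟨by omega, by omega, by omega, by omega⟩,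
        ⟨R_refl _ _, R_refl _ _, R_shift (by omega) h3 hka, by
          have e : c + a * b * N + 1 = d + a * b * N := by omega
          rw [e]; exact R_shift (by omega) h4 hka⟩,
        ⟨R_refl _ _, R_refl _ _, R_shift h0 h1 hkb, by
          have e : c + a * b * N + 1 = d + a * b * N := by omega
          rw [e]; exact R_shift (by omega) h2 hkb⟩,
        ⟨R_desc (by omega) ha (by omega), R_desc hbc (by omega) (by omega), R_self (by omega) _,
          R_succ hcd (by omega) (by omega)⟩,
        ⟨R_desc (by omega) ha (by omega), R_desc (by omega) (by omega) (by omega),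
          R_desc (by omega) (by omega) (by omega), R_self (by omega) _⟩, by omega⟩

end Pool.Agent.H312Fac
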