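import Mathlib
import Pool.Agent.H312Fac.CaseA

set_option autoImplicit false

namespace Pool.Agent.H312Fac

theorem caseC {N a b c d : ℕ} (hinf : Nat.factorial a = b → b + 1 = c → Nat.factorial b = d →
      ¬ c ∣ d → ∀ N : ℕ, ∃ m, N < m ∧ (Nat.factorial m + 1).Prime)
    (ha : 1 ≤ a) (hab : a < b) (hbc : b < c) (hcd : c < d) (hd : 720 < d)
    (h0 : c + 1 ≠ d) (h1 : Nat.factorial c ≠ d) (h : Nat.factorial b = d) : Ex N a b c d := by
  have hb7 := seven_le_of_fact h hd
  have hgb := fact_gt3 (show 4 ≤ b by omega)
  have hfab := fact_gap (show 3 ≤ b by omega) hab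
  have had : a ∣ d := h ▸ self_dvd_fact ha (by omega)
  obtain ⟨q, hqN, hq⟩ := Nat.exists_infinite_primes (N + d + 10)
  by_cases h2 : b + 1 = c
  · by_cases h3 : a + 1 = b
    · -- (t, t+1, t+2, (t+1)!)
      obtain ⟨t, ht⟩ : ∃ t, t + 1 + 1 = q := ⟨q - 2, by omega⟩
      have hgt := fact_gt3 (show 4 ≤ t + 1 by omega)
      have hga := fact_gt3 (show 4 ≤ a by omega)
      exact mk_inc (a' := t) (b' := t + 1) (c' := t + 1 + 1) (d' := Nat.factorial (t + 1))
        hab hbc hcd (by omega) (by omega) (by omega) (by omega) (by omega) (by omega)
        (R_self (by omega) _) (R_succ h3 (by omega) (by omega))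
        (R_nd (by omega) (by omega) (nd_add (m := t) (r := 2) dvd_rfl (by omega) (by omega)))
        (R_vac (by omega) (by omega) had)
        (R_succ h2 (by omega) (by omega))
        (R_fact h (by omega))
        (R_nd h0 h1 (ht ▸ prime_nd hq (by omega)))
    · by_cases h4 : Nat.factorial a = b
      · have ha3 := three_le_of_fact ha h4 (by omega)
        have hga := fact_gt ha3
        by_cases hcdv : c ∣ d
        · have hgt := fact_gt (show 3 ≤ a + N by omega)
          have hgt2 := fact_gt3 (show 4 ≤ Nat.factorial (a + N) by omega)
          have hdv := self_dvd_fact (show 1 ≤ a + N by omega) le_rfl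
          exact mk_inc (a' := a + N) (b' := Nat.factorial (a + N))
            (c' := Nat.factorial (a + N) + 1) (d' := Nat.factorial (Nat.factorial (a + N)))
            hab hbc hcd (by omega) (by omega) (by omega) (by omega) (by omega) (by omega)
            (R_self (by omega) _) (R_fact h4 (by omega))
            (R_nd (by omega) (by omega) (nd_add hdv (by omega) (by omega)))
            (R_vac (by omega) (by omega) had)
            (R_succ h2 (by omega) (by omega))
            (R_fact h (by omega))
            (R_vac h0 h1 hcdv)
        obtain ⟨t, htN, hp⟩ := hinf h4 h2 h hcdv (N + 10)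
        have hgt := fact_gt3 (show 4 ≤ t by omega)
        have hgt2 := fact_gt3 (show 4 ≤ Nat.factorial t by omega)
        have hdv := self_dvd_fact (show 1 ≤ t by omega) le_rfl
        exact mk_inc (a' := t) (b' := Nat.factorial t) (c' := Nat.factorial t + 1)
          (d' := Nat.factorial (Nat.factorial t))
          hab hbc hcd (by omega) (by omega) (by omega) (by omega) (by omega) (by omega)
          (R_self (by omega) _) (R_fact h4 (by omega))
          (R_nd (by omega) (by omega) (nd_add hdv (by omega) (by omega)))
          (R_vac (by omega) (by omega) had)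
          (R_succ h2 (by omega) (by omega))
          (R_fact h (by omega))
          (R_nd h0 h1 (prime_nd hp (by omega)))
      · by_cases h5 : Nat.factorial a = c
        · have ha3 := three_le_of_fact ha h5 (by omega)
          have ha4 : 4 ≤ a := by
            by_contra hh
            have : a = 3 := by omega
            subst this
            simp [Nat.factorial] at h5
            omega
          have hga := fact_gt3 ha4
          have hce : 2 ∣ c := h5 ▸ self_dvd_fact (by omega) (by omega)
          have hcd2 : c ∣ d := h ▸ even_dvd (by omega) hce (by omega)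
          have hgt := fact_gt3 (show 4 ≤ a + N by omega)
          obtain ⟨s, hs⟩ : ∃ s, Nat.factorial (a + N) = s + 1 :=
            ⟨Nat.factorial (a + N) - 1, by omega⟩
          have hgs := fact_gt3 (show 4 ≤ s by omega)
          have hdv := self_dvd_fact (show 1 ≤ a + N by omega) le_rfl
          have hfa : R a c (a + N) (s + 1) := hs ▸ R_fact h5 (by omega)
          exact mk_inc (a' := a + N) (b' := s) (c' := s + 1) (d' := Nat.factorial s)
            hab hbc hcd (by omega) (by omega) (by omega) (by omega) (by omega) (by omega)
            (R_self (by omega) _)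
            (R_nd (by omega) (by omega) (nd_sub (r := 1) hdv (by omega) (by omega) (by omega)))
            hfa
            (R_vac (by omega) (by omega) had)
            (R_succ h2 (by omega) (by omega))
            (R_fact h (by omega))
            (R_vac h0 h1 hcd2)
        · obtain ⟨t, ht⟩ : ∃ t, t + 1 = q := ⟨q - 1, by omega⟩
          have hgt := fact_gt3 (show 4 ≤ t by omega)
          have hnd : ¬ t + 1 ∣ Nat.factorial t := ht ▸ prime_nd hq (by omega)
          by_cases ha1 : a = 1
          · subst ha1
            exact mk_inc (a' := 1) (b' := t) (c' := t + 1) (d' := Nat.factorial t)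
              hab hbc hcd (by omega) (by omega) (by omega) (by omega) (by omega) (by omega)
              (R_refl _ _) (R_vac h3 h4 (one_dvd _)) (R_vac (by omega) h5 (one_dvd _))
              (R_vac (by omega) (by omega) (one_dvd _))
              (R_succ h2 (by omega) (by omega)) (R_fact h (by omega)) (R_nd h0 h1 hnd)
          · by_cases ha2 : a = 2
            · subst ha2
              by_cases hbe : 2 ∣ b
              · have hodd : ¬ 2 ∣ t + 1 := by
                  rw [ht]
                  intro h6
                  rcases (Nat.dvd_prime hq).1 h6 with h7 | h7 <;> omega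
                exact mk_inc (a' := 2) (b' := t) (c' := t + 1) (d' := Nat.factorial t)
                  hab hbc hcd (by omega) (by omega) (by omega) (by omega) (by omega) (by omega)
                  (R_refl _ _) (R_vac h3 h4 hbe) (R_nd (by omega) h5 hodd)
                  (R_vac (by omega) (by omega) had)
                  (R_succ h2 (by omega) (by omega)) (R_fact h (by omega)) (R_nd h0 h1 hnd)
              · have hcd2 : c ∣ d := h ▸ even_dvd (by omega) (by omega) (by omega)
                have hgt2 := fact_gt3 (show 4 ≤ b + 2 * N by omega)
                exact mk_inc (a' := 2) (b' := b + 2 * N) (c' := b + 2 * N + 1)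
                  (d' := Nat.factorial (b + 2 * N))
                  hab hbc hcd (by omega) (by omega) (by omega) (by omega) (by omega) (by omega)
                  (R_refl _ _) (R_nd h3 h4 (by omega)) (R_vac (by omega) h5 (by omega))
                  (R_vac (by omega) (by omega) had)
                  (R_succ h2 (by omega) (by omega)) (R_fact h (by omega)) (R_vac h0 h1 hcd2)
            · exact repl_a hab hbc hcd (by omega) h3 h4 h5 (by omega)
  · by_cases h5 : Nat.factorial a = c
    · have hcdv : c ∣ d := by
        rw [← h5, ← h]; exact Nat.factorial_dvd_factorial (by omega)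
      have ha3 := three_le_of_fact ha h5 (by omega)
      by_cases h3 : a + 1 = b
      · obtain ⟨t, ht⟩ : ∃ t, t + 1 = q := ⟨q - 1, by omega⟩
        have hgt := fact_gt3 (show 4 ≤ t by omega)
        have hlt := fact_lt (show 1 ≤ t by omega) (show t < t + 1 by omega)
        have hnd : ¬ t + 1 ∣ Nat.factorial t := ht ▸ prime_nd hq (by omega)
        exact mk_inc (a' := t) (b' := t + 1) (c' := Nat.factorial t)
          (d' := Nat.factorial (t + 1))
          hab hbc hcd (by omega) (by omega) (by omega) (by omega) (by omega) (by omega)
          (R_self (by omega) _) (R_succ h3 (by omega) (by omega)) (R_fact h5 (by omega))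
          (R_vac (by omega) (by omega) had)
          (R_nd h2 (by omega) hnd)
          (R_fact h (by omega))
          (R_vac h0 h1 hcdv)
      · have hgq := fact_gt3 (show 4 ≤ q by omega)
        have hgc := fact_gt (show 3 ≤ c by omega)
        exact ⟨a, q, c, Nat.factorial q, ⟨by omega, by omega, by omega, by omega⟩,
          ⟨R_refl _ _, R_prime h3 (by omega) hq (by omega), R_refl _ _,
            R_vac (by omega) (by omega) had⟩,
          ⟨R_prime' ha (by omega) (by omega) (by omega), R_self (by omega) _,
            R_prime' (by omega) h2 (by omega) (by omega), R_fact h (by omega)⟩,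
          ⟨R_refl _ _, R_prime (by omega) (by omega) hq (by omega), R_refl _ _,
            R_vac h0 h1 hcdv⟩,
          ⟨R_desc (by omega) ha (by omega), R_desc (by omega) (by omega) (by omega),
            R_desc hcd (by omega) (by omega), R_self (by omega) _⟩, by omega⟩
    · exact repl_c hab hbc hcd (by omega) ha h2 h5 (by omega) h0 h1

theorem caseD {N a b c d : ℕ} 
    (ha : 1 ≤ a) (hab : a < b) (hbc : b < c) (hcd : c < d) (hd : 720 < d)
    (h0 : c + 1 ≠ d) (h1 : Nat.factorial c ≠ d) (h2 : Nat.factorial b ≠ d)
    (h : Nat.factorial a = d) : Ex N a b c d := by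
  have ha7 := seven_le_of_fact h hd
  have hga := fact_gt3 (show 4 ≤ a by omega)
  have hfab := fact_lt ha hab
  have had : a ∣ d := h ▸ self_dvd_fact ha (by omega)
  obtain ⟨q, hqN, hq⟩ := Nat.exists_infinite_primes (N + d + 10)
  by_cases h3 : b + 1 = c
  · by_cases h4 : a + 1 = b
    · by_cases h5 : b ∣ d
      · obtain ⟨t, ht⟩ : ∃ t, t + 1 + 1 = q := ⟨q - 2, by omega⟩
        have hgt := fact_gt3 (show 4 ≤ t by omega)
        have hnd : ¬ t + 1 + 1 ∣ Nat.factorial t := ht ▸ prime_nd hq (by omega)
        exact mk_inc (a' := t) (b' := t + 1) (c' := t + 1 + 1) (d' := Nat.factorial t)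
          hab hbc hcd (by omega) (by omega) (by omega) (by omega) (by omega) (by omega)
          (R_self (by omega) _) (R_succ h4 (by omega) (by omega))
          (R_nd (by omega) (by omega) (nd_add (m := t) (r := 2) dvd_rfl (by omega) (by omega)))
          (R_fact h (by omega))
          (R_succ h3 (by omega) (by omega))
          (R_vac (by omega) h2 h5)
          (R_nd h0 h1 hnd)
      · have hbodd : ¬ 2 ∣ b := fun h6 => h5 (h ▸ even_dvd (by omega) h6 (by omega))
        have hcdv : c ∣ d := h ▸ even_dvd (by omega) (by omega) (by omega)
        obtain ⟨t, ht⟩ : ∃ t, t + 1 = q := ⟨q - 1, by omega⟩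
        have hgt := fact_gt3 (show 4 ≤ t by omega)
        have hnd : ¬ t + 1 ∣ Nat.factorial t := ht ▸ prime_nd hq (by omega)
        exact mk_inc (a' := t) (b' := t + 1) (c' := t + 1 + 1) (d' := Nat.factorial t)
          hab hbc hcd (by omega) (by omega) (by omega) (by omega) (by omega) (by omega)
          (R_self (by omega) _) (R_succ h4 (by omega) (by omega))
          (R_nd (by omega) (by omega) (nd_add (m := t) (r := 2) dvd_rfl (by omega) (by omega)))
          (R_fact h (by omega))
          (R_succ h3 (by omega) (by omega))
          (R_nd (by omega) h2 hnd)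
          (R_vac h0 h1 hcdv)
    · have hN : N + 1 ≤ d * (N + 1) := Nat.le_mul_of_pos_left (N + 1) (by omega)
      have hdN : d ≤ d * (N + 1) := Nat.le_mul_of_pos_right d (by omega)
      have hk : a ∣ d * (N + 1) := had.trans (Dvd.intro _ rfl)
      have hgc := fact_gt (show 3 ≤ c by omega)
      have hgb := fact_gt (show 3 ≤ b by omega)
      have hgd := fact_gt (show 3 ≤ d by omega)
      have e : b + d * (N + 1) + 1 = c + d * (N + 1) := by omega
      exact ⟨a, b + d * (N + 1), b + d * (N + 1) + 1, d, ⟨by omega, by omega, by omega, by omega⟩,
        ⟨R_refl _ _, R_shift h4 (by omega) hk, by rw [e]; exact R_shift (by omega) (by omega) hk,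
          R_refl _ _⟩,
        ⟨R_desc hab ha (by omega), R_self (by omega) _, R_succ h3 (by omega) (by omega),
          R_prime' (by omega) (by omega) h2 (by omega)⟩,
        ⟨R_desc (by omega) ha (by omega), R_desc hbc (by omega) (by omega), R_self (by omega) _,
          R_prime' (by omega) h0 h1 (by omega)⟩,
        ⟨R_refl _ _, R_shift (by omega) (by omega) (Dvd.intro _ rfl), by
          rw [e]; exact R_shift (by omega) (by omega) (Dvd.intro _ rfl), R_refl _ _⟩, by omega⟩
  · have hfc : Nat.factorial b ≠ c := by omega
    exact repl_c hab hbc hcd (by omega) ha h3 (by omega) hfc h0 h1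

end Pool.Agent.H312Fac
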