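import Mathlib
import Pool.Agent.H312Fac.Core

set_option autoImplicit false

namespace Pool.Agent.H312Fac

/-- explicit form of preservation for triples -/
theorem pres3 {a b c a' b' c' : ℕ} (ha : 1 ≤ a') (hb : 1 ≤ b') (hc : 1 ≤ c')
    (haa : R a a a' a') (hab : R a b a' b') (hac : R a c a' c')
    (hba : R b a b' a') (hbb : R b b b' b') (hbc : R b c b' c')
    (hca : R c a c' a') (hcb : R c b c' b') (hcc : R c c c' c') :
    (∀ i, 1 ≤ (![a', b', c'] : Fin 3 → ℕ) i) ∧
      ∀ i k, R ((![a, b, c] : Fin 3 → ℕ) i) ((![a, b, c] : Fin 3 → ℕ) k)
        ((![a', b', c'] : Fin 3 → ℕ) i) ((![a', b', c'] : Fin 3 → ℕ) k) := by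
  constructor
  · intro i
    fin_cases i <;> simpa
  · intro i k
    fin_cases i <;> fin_cases k <;> simpa

theorem R_small {a a' : ℕ} (h : a = a') : R a a a' a' := h ▸ R_refl a a

/-- core for sorted triples -/
theorem core3 {a b c : ℕ} (ha : 1 ≤ a) (hab : a ≤ b) (hbc : b ≤ c) (hc : 7 ≤ c) (N : ℕ) :
    ∃ a' b' c' : ℕ, (1 ≤ a' ∧ 1 ≤ b' ∧ 1 ≤ c' ∧ R a a a' a' ∧ R a b a' b' ∧ R a c a' c' ∧
      R b a b' a' ∧ R b b b' b' ∧ R b c b' c' ∧ R c a c' a' ∧ R c b c' b' ∧ R c c c' c') ∧
      (N < a' ∨ N < b' ∨ N < c') := by
  obtain ⟨q, hqN, hq⟩ := Nat.exists_infinite_primes (N + c + 10)
  by_cases h1 : b + 1 = c
  · -- b + 1 = c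
    by_cases h2 : a = b
    · subst h2
      exact ⟨a + N, a + N, a + N + 1, ⟨by omega, by omega, by omega, R_self (by omega) _,
        R_self (by omega) _, R_succ h1 (by omega) (by omega), R_self (by omega) _,
        R_self (by omega) _, R_succ h1 (by omega) (by omega), R_desc (by omega) (by omega) (by omega),
        R_desc (by omega) (by omega) (by omega), R_self (by omega) _⟩, by omega⟩
    · by_cases h3 : a + 1 = b
      · refine ⟨a + N, a + N + 1, a + N + 2, ⟨by omega, by omega, by omega, R_self (by omega) _,
          R_succ h3 (by omega) (by omega), ⟨fun h => by omega, fun h => ?_, fun _ => ?_⟩,
          R_desc (by omega) (by omega) (by omega),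
          R_self (by omega) _, R_succ h1 (by omega) (by omega),
          R_desc (by omega) (by omega) (by omega),
          R_desc (by omega) (by omega) (by omega), R_self (by omega) _⟩, by omega⟩
        · have := fact_gt (show 3 ≤ a by omega); omega
        · exact not_dvd_succ2 (by omega)
      · by_cases h4 : Nat.factorial a = b
        · have ha3 : 3 ≤ a := by
            by_contra h
            have : a = 1 ∨ a = 2 := by omega
            rcases this with rfl | rfl <;> simp [Nat.factorial] at h4 <;> omega
          have hgt := fact_gt ha3
          have hgt' := fact_gt (show 3 ≤ a + N by omega)
          refine ⟨a + N, Nat.factorial (a + N), Nat.factorial (a + N) + 1, ⟨by omega, by omega,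
            by omega, R_self (by omega) _,
            R_fact h4 (by omega), ⟨fun h => by omega, fun h => by omega, fun _ h => ?_⟩,
            R_desc (by omega) (by omega) (by omega),
            R_self (by omega) _, R_succ h1 (by omega) (by omega),
            R_desc (by omega) (by omega) (by omega),
            R_desc (by omega) (by omega) (by omega), R_self (by omega) _⟩, by omega⟩
          have h5 : a + N ∣ Nat.factorial (a + N) := Nat.dvd_factorial (by omega) le_rfl
          have h6 : a + N ∣ 1 := (Nat.dvd_add_right h5).1 h
          have := Nat.le_of_dvd one_pos h6
          omega
        · by_cases h5 : Nat.factorial a = c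
          · have ha3 : 3 ≤ a := by
              by_contra h
              have : a = 1 ∨ a = 2 := by omega
              rcases this with rfl | rfl <;> simp [Nat.factorial] at h5 <;> omega
            have hgt := fact_gt ha3
            have hgt' := fact_gt (show 3 ≤ a + N by omega)
            refine ⟨a + N, Nat.factorial (a + N) - 1, Nat.factorial (a + N), ⟨by omega, by omega,
              by omega, R_self (by omega) _,
              ⟨fun h => by omega, fun h => by omega, fun _ h => ?_⟩, R_fact h5 (by omega),
              R_desc (by omega) (by omega) (by omega),
              R_self (by omega) _, ?_,
              R_desc (by omega) (by omega) (by omega),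
              R_desc (by omega) (by omega) (by omega), R_self (by omega) _⟩, by omega⟩
            · have h7 : a + N ∣ Nat.factorial (a + N) := Nat.dvd_factorial (by omega) le_rfl
              have h6 : a + N ∣ 1 := by
                have : Nat.factorial (a + N) = (Nat.factorial (a + N) - 1) + 1 := by omega
                rw [this] at h7
                exact (Nat.dvd_add_right h).1 h7
              have := Nat.le_of_dvd one_pos h6
              omega
            · have h8 := R_succ (t := Nat.factorial (a + N) - 1) h1 (by omega) (by omega)
              rwa [Nat.sub_add_cancel (by omega)] at h8
          · -- a isolated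
            by_cases h6 : a = 1
            · subst h6
              exact ⟨1, b + N, b + N + 1, ⟨by omega, by omega, by omega, R_refl _ _,
                ⟨fun h => by omega, fun h => by simp at h; omega, fun h => absurd (one_dvd _) h⟩,
                ⟨fun h => by omega, fun h => by simp at h; omega, fun h => absurd (one_dvd _) h⟩,
                R_desc (by omega) (by omega) (by omega), R_self (by omega) _,
                R_succ h1 (by omega) (by omega), R_desc (by omega) (by omega) (by omega),
                R_desc (by omega) (by omega) (by omega), R_self (by omega) _⟩, by omega⟩
            · by_cases h7 : a = 2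
              · subst h7
                exact ⟨2, b + 2 * N, b + 2 * N + 1, ⟨by omega, by omega, by omega, R_refl _ _,
                  ⟨fun h => by omega, fun h => by simp at h; omega, fun h => by omega⟩,
                  ⟨fun h => by omega, fun h => by simp at h; omega, fun h => by omega⟩,
                  R_desc (by omega) (by omega) (by omega), R_self (by omega) _,
                  R_succ h1 (by omega) (by omega), R_desc (by omega) (by omega) (by omega),
                  R_desc (by omega) (by omega) (by omega), R_self (by omega) _⟩, by omega⟩
              · have hb! := fact_gt (show 3 ≤ b by omega)
                have hc! := fact_gt (show 3 ≤ c by omega)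
                exact ⟨q, b, c, ⟨by omega, by omega, by omega, R_self (by omega) _,
                  R_prime' (by omega) h3 h4 (by omega),
                  R_prime' (by omega) (by omega) h5 (by omega),
                  R_prime (by omega) (by omega) hq (by omega), R_refl _ _, R_refl _ _,
                  R_prime (by omega) (by omega) hq (by omega), R_refl _ _, R_refl _ _⟩, by omega⟩
  · by_cases h2 : Nat.factorial b = c
    · have hb3 : 3 ≤ b := by
        by_contra h
        have : b = 1 ∨ b = 2 := by omega
        rcases this with rfl | rfl <;> simp [Nat.factorial] at h2 <;> omega
      have hb4 : 4 ≤ b := by
        by_contra h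
        have : b = 3 := by omega
        subst this
        simp [Nat.factorial] at h2
        omega
      have hgb := fact_gt hb3
      by_cases h3 : a = b
      · subst h3
        have hg := fact_gt (show 3 ≤ a + N by omega)
        exact ⟨a + N, a + N, Nat.factorial (a + N), ⟨by omega, by omega, by omega,
          R_self (by omega) _,
          R_self (by omega) _, R_fact h2 (by omega), R_self (by omega) _,
          R_self (by omega) _, R_fact h2 (by omega), R_desc (by omega) (by omega) (by omega),
          R_desc (by omega) (by omega) (by omega), R_self (by omega) _⟩, by omega⟩
      · by_cases h4 : a + 1 = b
        · have hg := fact_gt (show 3 ≤ a + N + 1 by omega)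
          refine ⟨a + N, a + N + 1, Nat.factorial (a + N + 1), ⟨by omega, by omega, by omega,
            R_self (by omega) _,
            R_succ h4 (by omega) (by omega),
            ⟨fun h => by omega, fun h => ?_, fun h => absurd ?_ h⟩,
            R_desc (by omega) (by omega) (by omega),
            R_self (by omega) _, R_fact h2 (by omega), R_desc (by omega) (by omega) (by omega),
            R_desc (by omega) (by omega) (by omega), R_self (by omega) _⟩, by omega⟩
          · exfalso
            rw [← h2, ← h4, Nat.factorial_succ] at h
            have := Nat.factorial_pos a
            nlinarith
          · rw [← h2]; exact Nat.dvd_factorial (by omega) (by omega)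
        · by_cases h5 : Nat.factorial a = b
          · have ha3 : 3 ≤ a := by
              by_contra h
              have : a = 1 ∨ a = 2 := by omega
              rcases this with rfl | rfl <;> simp [Nat.factorial] at h5 <;> omega
            have hga := fact_gt ha3
            have hg := fact_gt (show 3 ≤ a + N by omega)
            have hg2 := fact_gt (show 3 ≤ Nat.factorial (a + N) by omega)
            refine ⟨a + N, Nat.factorial (a + N), Nat.factorial (Nat.factorial (a + N)),
              ⟨by omega, by omega, by omega,
              R_self (by omega) _, R_fact h5 (by omega),
              ⟨fun h => by omega, fun h => by omega, fun h => absurd ?_ h⟩,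
              R_desc (by omega) (by omega) (by omega),
              R_self (by omega) _, R_fact h2 (by omega), R_desc (by omega) (by omega) (by omega),
              R_desc (by omega) (by omega) (by omega), R_self (by omega) _⟩, by omega⟩
            rw [← h2]; exact Nat.dvd_factorial (by omega) (by omega)
          · have hac : a ∣ c := by
              rw [← h2]; exact Nat.dvd_factorial (by omega) (by omega)
            have hfac : Nat.factorial a ≠ c := by
              intro h
              rw [← h2] at h
              have h8 : a < b := by omega
              have := (Nat.factorial_lt (show 0 < a by omega)).2 h8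
              omega
            by_cases h6 : a = 1
            · subst h6
              have hg := fact_gt (show 3 ≤ b + N by omega)
              exact ⟨1, b + N, Nat.factorial (b + N), ⟨by omega, by omega, by omega, R_refl _ _,
                ⟨fun h => by omega, fun h => by simp at h; omega, fun h => absurd (one_dvd _) h⟩,
                ⟨fun h => by omega, fun h => by simp at h; omega, fun h => absurd (one_dvd _) h⟩,
                R_desc (by omega) (by omega) (by omega), R_self (by omega) _,
                R_fact h2 (by omega), R_desc (by omega) (by omega) (by omega),
                R_desc (by omega) (by omega) (by omega), R_self (by omega) _⟩, by omega⟩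
            · by_cases h7 : a = 2
              · subst h7
                have hg := fact_gt (show 3 ≤ b + 2 * N by omega)
                exact ⟨2, b + 2 * N, Nat.factorial (b + 2 * N), ⟨by omega, by omega, by omega,
                  R_refl _ _,
                  ⟨fun h => by omega, fun h => by simp at h; omega, fun h => by omega⟩,
                  ⟨fun h => by omega, fun h => absurd h hfac, fun h => absurd hac h⟩,
                  R_desc (by omega) (by omega) (by omega), R_self (by omega) _,
                  R_fact h2 (by omega), R_desc (by omega) (by omega) (by omega),
                  R_desc (by omega) (by omega) (by omega), R_self (by omega) _⟩, by omega⟩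
              · have hc! := fact_gt (show 3 ≤ c by omega)
                exact ⟨q, b, c, ⟨by omega, by omega, by omega, R_self (by omega) _,
                  R_prime' (by omega) h4 h5 (by omega),
                  R_prime' (by omega) (by omega) hfac (by omega),
                  R_prime (by omega) (by omega) hq (by omega), R_refl _ _, R_refl _ _,
                  R_prime (by omega) (by omega) hq (by omega), R_refl _ _, R_refl _ _⟩, by omega⟩
    · by_cases h3 : a + 1 = c
      · have h4 : b = c := by omega
        subst h4
        exact ⟨a + N, a + N + 1, a + N + 1, ⟨by omega, by omega, by omega,
          R_self (by omega) _,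
          R_succ h3 (by omega) (by omega), R_succ h3 (by omega) (by omega),
          R_desc (by omega) (by omega) (by omega),
          R_self (by omega) _, R_self (by omega) _, R_desc (by omega) (by omega) (by omega),
          R_self (by omega) _, R_self (by omega) _⟩, by omega⟩
      · by_cases h4 : Nat.factorial a = c
        · have ha3 : 3 ≤ a := by
            by_contra h
            have : a = 1 ∨ a = 2 := by omega
            rcases this with rfl | rfl <;> simp [Nat.factorial] at h4 <;> omega
          have hga := fact_gt ha3
          have hnab : a ≠ b := fun h => h2 (h ▸ h4)
          by_cases h5 : b = c
          · subst h5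
            have hg := fact_gt (show 3 ≤ a + N by omega)
            exact ⟨a + N, Nat.factorial (a + N), Nat.factorial (a + N), ⟨by omega, by omega,
              by omega, R_self (by omega) _, R_fact h4 (by omega), R_fact h4 (by omega),
              R_desc (by omega) (by omega) (by omega),
              R_self (by omega) _, R_self (by omega) _, R_desc (by omega) (by omega) (by omega),
              R_self (by omega) _, R_self (by omega) _⟩, by omega⟩
          · by_cases h6 : a + 1 = b
            · have hg := fact_gt (show 3 ≤ q - 1 by omega)
              have e : q - 1 + 1 = q := by omega
              refine ⟨q - 1, q, Nat.factorial (q - 1), ⟨by omega, by omega, by omega,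
                R_self (by omega) _, ?_, R_fact h4 (by omega),
                R_desc (by omega) (by omega) (by omega), R_self (by omega) _,
                ⟨fun h => absurd h h1, fun h => absurd h h2, fun _ h => ?_⟩,
                R_desc (by omega) (by omega) (by omega),
                R_desc (by omega) (by omega) (by omega), R_self (by omega) _⟩, by omega⟩
              · have := R_succ (t := q - 1) h6 (by omega) (by omega)
                rwa [e] at this
              · have := (Nat.Prime.dvd_factorial hq).1 h
                omega
            · have hgb := fact_gt (show 3 ≤ b by omega)
              exact ⟨a, q, c, ⟨by omega, by omega, by omega, R_refl _ _,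
                R_prime h6 (by omega) hq (by omega), R_refl _ _,
                R_prime' (by omega) (by omega) (by omega) (by omega), R_self (by omega) _,
                R_prime' (by omega) h1 h2 (by omega), R_refl _ _,
                R_prime (by omega) (fun h => by
                  have := fact_gt (show 3 ≤ c by omega)
                  omega) hq (by omega), R_refl _ _⟩, by omega⟩
        · -- c isolated
          have hgc := fact_gt (show 3 ≤ c by omega)
          exact ⟨a, b, q, ⟨by omega, by omega, by omega, R_refl _ _, R_refl _ _,
            R_prime h3 h4 hq (by omega), R_refl _ _, R_refl _ _, R_prime h1 h2 hq (by omega),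
            R_prime' (by omega) (by omega) (by omega) (by omega),
            R_prime' (by omega) (by omega) (by omega) (by omega), R_self (by omega) _⟩, by omega⟩

end Pool.Agent.H312Fac
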