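import Mathlib
import Pool.Agent.H312Fac.CaseA
import Pool.Agent.H312Fac.CaseCD
import Pool.Agent.H312Fac.Main

set_option autoImplicit false

namespace Pool.Agent.H312Fac

theorem caseB {N a b c d : ℕ}
    (ha : 1 ≤ a) (hab : a < b) (hbc : b < c) (hd : 720 < d)
    (h : Nat.factorial c = d) : Ex N a b c d := by
  have hc7 := seven_le_of_fact h hd
  have hgc := fact_gt3 (show 4 ≤ c by omega)
  have hcd : c < d := by omega
  have had : a ∣ d := h ▸ self_dvd_fact ha (by omega)
  have hbd : b ∣ d := h ▸ self_dvd_fact (by omega) (by omega)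
  have hac := fact_lt ha (show a < c by omega)
  have hbc' := fact_lt (show 1 ≤ b by omega) hbc
  obtain ⟨q, hqN, hq⟩ := Nat.exists_infinite_primes (N + d + 10)
  by_cases h1 : b + 1 = c
  · by_cases h3 : a + 1 = b
    · have hga := fact_gt3 (show 4 ≤ a by omega)
      have hgt := fact_gt3 (show 4 ≤ a + N + 1 + 1 by omega)
      exact mk_inc (a' := a + N) (b' := a + N + 1) (c' := a + N + 1 + 1)
        (d' := Nat.factorial (a + N + 1 + 1))
        hab hbc hcd (by omega) (by omega) (by omega) (by omega) (by omega) (by omega)
        (R_self (by omega) _) (R_succ h3 (by omega) (by omega))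
        (R_nd (by omega) (by omega) (nd_add (m := a + N) (r := 2) dvd_rfl (by omega) (by omega)))
        (R_vac (by omega) (by omega) had)
        (R_succ h1 (by omega) (by omega))
        (R_vac (by omega) (by omega) hbd)
        (R_fact h (by omega))
    · by_cases h4 : Nat.factorial a = b
      · have ha3 := three_le_of_fact ha h4 (by omega)
        have hga := fact_gt ha3
        have hgt := fact_gt (show 3 ≤ a + N by omega)
        have hgt2 := fact_gt3 (show 4 ≤ Nat.factorial (a + N) + 1 by omega)
        have hdv := self_dvd_fact (show 1 ≤ a + N by omega) le_rfl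
        exact mk_inc (a' := a + N) (b' := Nat.factorial (a + N)) (c' := Nat.factorial (a + N) + 1)
          (d' := Nat.factorial (Nat.factorial (a + N) + 1))
          hab hbc hcd (by omega) (by omega) (by omega) (by omega) (by omega) (by omega)
          (R_self (by omega) _) (R_fact h4 (by omega))
          (R_nd (by omega) (by omega) (nd_add hdv (by omega) (by omega)))
          (R_vac (by omega) (by omega) had)
          (R_succ h1 (by omega) (by omega))
          (R_vac (by omega) (by omega) hbd)
          (R_fact h (by omega))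
      · by_cases h5 : Nat.factorial a = c
        · have ha3 := three_le_of_fact ha h5 (by omega)
          have hga := fact_gt ha3
          have hgt := fact_gt (show 3 ≤ a + N by omega)
          have hdv := self_dvd_fact (show 1 ≤ a + N by omega) le_rfl
          have ha4 : 4 ≤ a := by
            by_contra hh
            have : a = 3 := by omega
            subst this
            simp [Nat.factorial] at h5
            omega
          have hga4 := fact_gt3 ha4
          have hgt4 := fact_gt3 (show 4 ≤ a + N by omega)
          obtain ⟨s, hs⟩ : ∃ s, Nat.factorial (a + N) = s + 1 :=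
            ⟨Nat.factorial (a + N) - 1, by omega⟩
          have hgs := fact_gt3 (show 4 ≤ s + 1 by omega)
          have hfa : R a c (a + N) (s + 1) := hs ▸ R_fact h5 (by omega)
          exact mk_inc (a' := a + N) (b' := s) (c' := s + 1) (d' := Nat.factorial (s + 1))
            hab hbc hcd (by omega) (by omega) (by omega) (by omega) (by omega) (by omega)
            (R_self (by omega) _)
            (R_nd (by omega) (by omega) (nd_sub (r := 1) hdv (by omega) (by omega) (by omega)))
            hfa
            (R_vac (by omega) (by omega) had)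
            (R_succ h1 (by omega) (by omega))
            (R_vac (by omega) (by omega) hbd)
            (R_fact h (by omega))
        · have hN : N ≤ a * N := Nat.le_mul_of_pos_left N ha
          have hk : a ∣ a * N := Dvd.intro _ rfl
          have e2 : c + a * N = b + a * N + 1 := by omega
          have r2 : R a c a (b + a * N + 1) := e2 ▸ R_shift (by omega) h5 hk
          have hgs := fact_gt3 (show 4 ≤ b + a * N + 1 by omega)
          exact mk_inc (a' := a) (b' := b + a * N) (c' := b + a * N + 1)
            (d' := Nat.factorial (b + a * N + 1))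
            hab hbc hcd (by omega) (by omega) (by omega) (by omega) (by omega) (by omega)
            (R_refl _ _) (R_shift h3 h4 hk) r2
            (R_vac (by omega) (by omega) had)
            (R_succ h1 (by omega) (by omega))
            (R_vac (by omega) (by omega) hbd)
            (R_fact h (by omega))
  · by_cases h2 : Nat.factorial b = c
    · have hb3 := three_le_of_fact (by omega) h2 (by omega)
      have hb4 : 4 ≤ b := by
        by_contra hh
        have : b = 3 := by omega
        subst this
        simp [Nat.factorial] at h2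
        omega
      have hgb := fact_gt3 hb4
      have hfab := fact_lt ha hab
      have hacd : a ∣ c := h2 ▸ self_dvd_fact ha (by omega)
      by_cases h3 : a + 1 = b
      · have hgt := fact_gt3 (show 4 ≤ a + N + 1 by omega)
        have hgt2 := fact_gt3 (show 4 ≤ Nat.factorial (a + N + 1) by omega)
        exact mk_inc (a' := a + N) (b' := a + N + 1) (c' := Nat.factorial (a + N + 1))
          (d' := Nat.factorial (Nat.factorial (a + N + 1)))
          hab hbc hcd (by omega) (by omega) (by omega) (by omega) (by omega) (by omega)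
          (R_self (by omega) _) (R_succ h3 (by omega) (by omega))
          (R_vac (by omega) (by omega) hacd)
          (R_vac (by omega) (by omega) had)
          (R_fact h2 (by omega))
          (R_vac (by omega) (by omega) hbd)
          (R_fact h (by omega))
      · by_cases h4 : Nat.factorial a = b
        · have ha3 := three_le_of_fact ha h4 (by omega)
          have hga := fact_gt ha3
          have hgt := fact_gt (show 3 ≤ a + N by omega)
          have hgt2 := fact_gt3 (show 4 ≤ Nat.factorial (a + N) by omega)
          have hgt3 := fact_gt3 (show 4 ≤ Nat.factorial (Nat.factorial (a + N)) by omega)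
          exact mk_inc (a' := a + N) (b' := Nat.factorial (a + N))
            (c' := Nat.factorial (Nat.factorial (a + N)))
            (d' := Nat.factorial (Nat.factorial (Nat.factorial (a + N))))
            hab hbc hcd (by omega) (by omega) (by omega) (by omega) (by omega) (by omega)
            (R_self (by omega) _) (R_fact h4 (by omega))
            (R_vac (by omega) (by omega) hacd)
            (R_vac (by omega) (by omega) had)
            (R_fact h2 (by omega))
            (R_vac (by omega) (by omega) hbd)
            (R_fact h (by omega))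
        · have hN : N ≤ a * N := Nat.le_mul_of_pos_left N ha
          have hk : a ∣ a * N := Dvd.intro _ rfl
          have hgt2 := fact_gt3 (show 4 ≤ b + a * N by omega)
          have hgt3 := fact_gt3 (show 4 ≤ Nat.factorial (b + a * N) by omega)
          exact mk_inc (a' := a) (b' := b + a * N)
            (c' := Nat.factorial (b + a * N))
            (d' := Nat.factorial (Nat.factorial (b + a * N)))
            hab hbc hcd (by omega) (by omega) (by omega) (by omega) (by omega) (by omega)
            (R_refl _ _) (R_shift h3 h4 hk)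
            (R_vac (by omega) (by omega) hacd)
            (R_vac (by omega) (by omega) had)
            (R_fact h2 (by omega))
            (R_vac (by omega) (by omega) hbd)
            (R_fact h (by omega))
    · by_cases h5 : Nat.factorial a = c
      · have ha3 := three_le_of_fact ha h5 (by omega)
        by_cases h3 : a + 1 = b
        · obtain ⟨t, ht⟩ : ∃ t, t + 1 = q := ⟨q - 1, by omega⟩
          have hgt := fact_gt3 (show 4 ≤ t by omega)
          have hgt2 := fact_gt3 (show 4 ≤ Nat.factorial t by omega)
          have hnd : ¬ t + 1 ∣ Nat.factorial t := ht ▸ prime_nd hq (by omega)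
          exact mk_inc (a' := t) (b' := t + 1) (c' := Nat.factorial t)
            (d' := Nat.factorial (Nat.factorial t))
            hab hbc hcd (by omega) (by omega) (by omega) (by omega) (by omega) (by omega)
            (R_self (by omega) _) (R_succ h3 (by omega) (by omega))
            (R_fact h5 (by omega))
            (R_vac (by omega) (by omega) had)
            (R_nd h1 h2 hnd)
            (R_vac (by omega) (by omega) hbd)
            (R_fact h (by omega))
        · exact repl_b hab hbc hcd (by omega) ha h3 (by omega) h1 h2 (by omega)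
      · have hN : N ≤ a * b * N := Nat.le_mul_of_pos_left N (Nat.mul_pos (by omega) (by omega))
        have hka : a ∣ a * b * N := Dvd.intro _ (mul_assoc a b N).symm
        have hkb : b ∣ a * b * N := (Dvd.intro_left a rfl).trans (Dvd.intro _ rfl)
        have hgs := fact_gt3 (show 4 ≤ c + a * b * N by omega)
        exact ⟨a, b, c + a * b * N, Nat.factorial (c + a * b * N),
          ⟨by omega, by omega, by omega, by omega⟩,
          ⟨R_refl _ _, R_refl _ _, R_shift (by omega) h5 hka, R_vac (by omega) (by omega) had⟩,
          ⟨R_refl _ _, R_refl _ _, R_shift h1 h2 hkb, R_vac (by omega) (by omega) hbd⟩,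
          ⟨R_desc (by omega) ha (by omega), R_desc hbc (by omega) (by omega), R_self (by omega) _,
            R_fact h (by omega)⟩,
          ⟨R_desc (by omega) ha (by omega), R_desc (by omega) (by omega) (by omega),
            R_desc hcd (by omega) (by omega), R_self (by omega) _⟩, by omega⟩

theorem ex_strict {N a b c d : ℕ} (hinf : Nat.factorial a = b → b + 1 = c → Nat.factorial b = d →
      ¬ c ∣ d → ∀ N : ℕ, ∃ m, N < m ∧ (Nat.factorial m + 1).Prime)
    (ha : 1 ≤ a) (hab : a < b) (hbc : b < c) (hcd : c < d) (hd : 720 < d) : Ex N a b c d := by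
  by_cases h1 : c + 1 = d
  · by_cases h2 : b + 1 = c
    · exact caseA1 ha hab hbc hd h1 h2
    · by_cases h3 : Nat.factorial b = c
      · exact caseA2 ha hab hbc hd h1 h2 h3
      · by_cases h4 : Nat.factorial b = d
        · exact caseA3 ha hab hbc hd h1 h2 h4
        · exact caseA4 ha hab hbc hd h1 h2 h3 h4
  · by_cases h2 : Nat.factorial c = d
    · exact caseB ha hab hbc hd h2
    · by_cases h3 : Nat.factorial b = d
      · exact caseC hinf ha hab hbc hcd hd h1 h2 h3
      · by_cases h4 : Nat.factorial a = d
        · exact caseD ha hab hbc hcd hd h1 h2 h3 h4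
        · exact repl_d hab hbc hcd (by omega) ha h1 h4 h3 h2

theorem ex_sorted {N a b c d : ℕ} (hinf : Nat.factorial a = b → b + 1 = c → Nat.factorial b = d →
      ¬ c ∣ d → ∀ N : ℕ, ∃ m, N < m ∧ (Nat.factorial m + 1).Prime)
    (ha : 1 ≤ a) (hab : a ≤ b) (hbc : b ≤ c) (hcd : c ≤ d) (hd : 720 < d) : Ex N a b c d := by
  by_cases e1 : a = b
  · subst e1
    obtain ⟨a', c', d', ⟨p1, p2, p3, r1, r2, r3, r4, r5, r6, r7, r8, r9⟩, hN⟩ :=
      core3 ha hbc hcd (by omega) N
    exact ⟨a', a', c', d', ⟨p1, p1, p2, p3⟩, ⟨r1, r1, r2, r3⟩, ⟨r1, r1, r2, r3⟩, ⟨r4, r4, r5, r6⟩,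
      ⟨r7, r7, r8, r9⟩, by omega⟩
  · by_cases e2 : b = c
    · subst e2
      obtain ⟨a', b', d', ⟨p1, p2, p3, r1, r2, r3, r4, r5, r6, r7, r8, r9⟩, hN⟩ :=
        core3 ha hab hcd (by omega) N
      exact ⟨a', b', b', d', ⟨p1, p2, p2, p3⟩, ⟨r1, r2, r2, r3⟩, ⟨r4, r5, r5, r6⟩,
        ⟨r4, r5, r5, r6⟩, ⟨r7, r8, r8, r9⟩, by omega⟩
    · by_cases e3 : c = d
      · subst e3
        obtain ⟨a', b', c', ⟨p1, p2, p3, r1, r2, r3, r4, r5, r6, r7, r8, r9⟩, hN⟩ :=
          core3 ha hab hbc (by omega) N
        exact ⟨a', b', c', c', ⟨p1, p2, p3, p3⟩, ⟨r1, r2, r3, r3⟩, ⟨r4, r5, r6, r6⟩,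
          ⟨r7, r8, r9, r9⟩, ⟨r7, r8, r9, r9⟩, by omega⟩
      · exact ex_strict hinf ha (by omega) (by omega) (by omega) hd

theorem pres4 {N : ℕ} (x : Fin 4 → ℕ)
    (hinf : ∀ σ : Equiv.Perm (Fin 4), Nat.factorial (x (σ 0)) = x (σ 1) → x (σ 1) + 1 = x (σ 2) →
      Nat.factorial (x (σ 1)) = x (σ 3) → ¬ x (σ 2) ∣ x (σ 3) →
      ∀ N : ℕ, ∃ m, N < m ∧ (Nat.factorial m + 1).Prime)
     (hx : ∀ i, 1 ≤ x i) (hbig : ∃ i, 720 < x i) :
    ∃ y : Fin 4 → ℕ, Pres x y ∧ ∃ i, N < y i := by
  let σ := Tuple.sort x
  have hm : Monotone (x ∘ σ) := Tuple.monotone_sort x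
  have h01 : x (σ 0) ≤ x (σ 1) := hm (by decide)
  have h12 : x (σ 1) ≤ x (σ 2) := hm (by decide)
  have h23 : x (σ 2) ≤ x (σ 3) := hm (by decide)
  obtain ⟨i, hi⟩ := hbig
  have h3 : 720 < x (σ 3) := by
    have h4 : x (σ (σ.symm i)) ≤ x (σ 3) := hm (Fin.le_last _)
    rw [Equiv.apply_symm_apply] at h4
    omega
  obtain ⟨a', b', c', d', ⟨p1, p2, p3, p4⟩, ⟨r1, r2, r3, r4⟩, ⟨s1, s2, s3, s4⟩,
    ⟨t1, t2, t3, t4⟩, ⟨u1, u2, u3, u4⟩, hN⟩ := ex_sorted (N := N) (hinf σ) (hx (σ 0)) h01 h12 h23 h3
  let z : Fin 4 → ℕ := ![a', b', c', d']
  have hz1 : ∀ i, 1 ≤ z i := by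
    intro i; fin_cases i
    · exact p1
    · exact p2
    · exact p3
    · exact p4
  have hz : ∀ i k, R (x (σ i)) (x (σ k)) (z i) (z k) := by
    intro i k
    fin_cases i <;> fin_cases k
    · exact r1
    · exact r2
    · exact r3
    · exact r4
    · exact s1
    · exact s2
    · exact s3
    · exact s4
    · exact t1
    · exact t2
    · exact t3
    · exact t4
    · exact u1
    · exact u2
    · exact u3
    · exact u4
  refine ⟨fun i => z (σ.symm i), ⟨fun i => hz1 _, fun i k => ?_⟩, ?_⟩
  · have := hz (σ.symm i) (σ.symm k)
    simpa using this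
  · rcases hN with h | h | h | h
    · exact ⟨σ 0, by simpa [z] using h⟩
    · exact ⟨σ 1, by simpa [z] using h⟩
    · exact ⟨σ 2, by simpa [z] using h⟩
    · exact ⟨σ 3, by simpa [z] using h⟩

end Pool.Agent.H312Fac
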