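import Mathlib
import Pool.Agent.H312Fac.CaseB

set_option autoImplicit false

namespace Pool.Agent.H312Fac

theorem dvd_fact_of_not_prime {b : ℕ} (hb : 6 ≤ b) (hnp : ¬ b.Prime) :
    b ∣ Nat.factorial (b - 1) := by
  obtain ⟨m, hm, hm1, hm2⟩ := Nat.exists_dvd_of_not_prime2 (by omega) hnp
  obtain ⟨k, hk⟩ := hm
  have hk2 : 2 ≤ k := by
    by_contra hk3
    have : k = 0 ∨ k = 1 := by omega
    rcases this with rfl | rfl <;> omega
  rcases lt_trichotomy m k with h7 | h7 | h7
  · rw [hk]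
    refine mul_dvd_fact (by omega) h7 ?_
    have : 2 * k ≤ m * k := Nat.mul_le_mul_right _ hm1
    omega
  · subst h7
    have hm3 : 3 ≤ m := by
      by_contra hm4
      have : m = 2 := by omega
      subst this
      omega
    have h8 : m * (2 * m) ∣ Nat.factorial (b - 1) := by
      refine mul_dvd_fact (by omega) (by omega) ?_
      have : 3 * m ≤ m * m := Nat.mul_le_mul_right _ hm3
      omega
    rw [hk]
    rw [hk] at h8
    exact (Dvd.intro 2 (by ring)).trans h8
  · rw [hk, mul_comm]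
    refine mul_dvd_fact (by omega) h7 ?_
    have : m * 2 ≤ m * k := Nat.mul_le_mul_left _ hk2
    have h10 : k * m = m * k := mul_comm k m
    omega

/-- the solution set of a system in 4 unknowns -/
def Sol (A B C : Set (Fin 4 × Fin 4)) : Set (Fin 4 → ℕ) :=
  {x : Fin 4 → ℕ | (∀ i, 1 ≤ x i) ∧ (∀ p ∈ A, x p.1 + 1 = x p.2) ∧
    (∀ p ∈ B, Nat.factorial (x p.1) = x p.2) ∧ (∀ p ∈ C, ¬ (x p.1 ∣ x p.2))}

theorem sol_of_pres {A B C : Set (Fin 4 × Fin 4)} {x y : Fin 4 → ℕ} (hx : x ∈ Sol A B C)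
    (h : Pres x y) : y ∈ Sol A B C :=
  ⟨h.1, fun p hp => (h.2 p.1 p.2).1 (hx.2.1 p hp), fun p hp => (h.2 p.1 p.2).2.1 (hx.2.2.1 p hp),
    fun p hp => (h.2 p.1 p.2).2.2 (hx.2.2.2 p hp)⟩

theorem not_finite {A B C : Set (Fin 4 × Fin 4)} {x : Fin 4 → ℕ} (hx : x ∈ Sol A B C)
    (h : ∀ N : ℕ, ∃ y : Fin 4 → ℕ, Pres x y ∧ ∃ i, N < y i) : ¬ (Sol A B C).Finite := by
  intro hf
  have hb : BddAbove ((fun y : Fin 4 → ℕ => ∑ i, y i) '' Sol A B C) := (hf.image _).bddAbove
  obtain ⟨N, hN⟩ := hb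
  obtain ⟨y, hy, i, hi⟩ := h N
  have h1 := hN ⟨y, sol_of_pres hx hy, rfl⟩
  have h2 : y i ≤ ∑ i, y i := Finset.single_le_sum (fun _ _ => Nat.zero_le _) (Finset.mem_univ i)
  simp only at h1
  omega

theorem part1 (A B C : Set (Fin 4 × Fin 4)) (hf : (Sol A B C).Finite) (x : Fin 4 → ℕ)
    (hx : x ∈ Sol A B C) (hbig : ∃ i, 720 < x i) :
    ∃ m : ℕ, 4 ≤ m ∧ (Nat.factorial m + 1).Prime ∧ ∃ σ : Equiv.Perm (Fin 4),
      x (σ 0) = m ∧ x (σ 1) = Nat.factorial m ∧ x (σ 2) = Nat.factorial m + 1 ∧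
      x (σ 3) = Nat.factorial (Nat.factorial m) := by
  by_contra hno
  refine not_finite hx (fun N => pres4 x ?_ hx.1 hbig) hf
  intro σ h1 h2 h3 h4
  exfalso
  apply hno
  obtain ⟨i, hi⟩ := hbig
  have hpos := hx.1 (σ 0)
  have h5 : 4 ≤ x (σ 0) := by
    by_contra h6
    have h7 : Nat.factorial (x (σ 0)) ≤ Nat.factorial 3 := Nat.factorial_le (by omega)
    have h8 : Nat.factorial 3 = 6 := by decide
    have h9 : Nat.factorial (x (σ 1)) ≤ Nat.factorial 6 := Nat.factorial_le (by omega)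
    have h10 : Nat.factorial 6 = 720 := by decide
    have h11 : ∀ j, x (σ j) ≤ 720 := by
      intro j; fin_cases j
      · show x (σ 0) ≤ 720
        omega
      · show x (σ 1) ≤ 720
        omega
      · show x (σ 2) ≤ 720
        omega
      · show x (σ 3) ≤ 720
        omega
    have := h11 (σ.symm i)
    rw [Equiv.apply_symm_apply] at this
    omega
  have hg := fact_gt3 h5
  refine ⟨x (σ 0), h5, ?_, σ, rfl, h1.symm, by omega, by rw [h1, h3]⟩
  by_contra hnp
  have h6 := dvd_fact_of_not_prime (by omega) hnp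
  apply h4
  rw [← h3, ← h2, ← h1]
  simpa using h6

theorem exists_big_prime : ∃ m, 7 ≤ m ∧ (Nat.factorial m + 1).Prime := by
  refine ⟨11, by norm_num, ?_⟩
  have : Nat.factorial 11 + 1 = 39916801 := by decide
  rw [this]; norm_num

theorem part2 (h : ∀ A B C : Set (Fin 4 × Fin 4), (Sol A B C).Finite → ∀ x ∈ Sol A B C, ∀ i,
    x i ≤ 720) : {m : ℕ | (Nat.factorial m + 1).Prime}.Infinite := by
  intro hfin
  obtain ⟨m, hm7, hp⟩ := exists_big_prime
  have hmem : (![m, Nat.factorial m, Nat.factorial m + 1, Nat.factorial (Nat.factorial m)] :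
      Fin 4 → ℕ) ∈ Sol {(1, 2)} {(0, 1), (1, 3)} {(2, 3)} := by
    refine ⟨fun i => ?_, ?_, ?_, ?_⟩
    · fin_cases i
      · show 1 ≤ m
        omega
      · exact Nat.factorial_pos _
      · show 1 ≤ Nat.factorial m + 1
        omega
      · exact Nat.factorial_pos _
    · intro p hp
      rw [Set.mem_singleton_iff] at hp
      subst hp
      rfl
    · intro p hp
      rcases hp with hp | hp
      · subst hp; rfl
      · rw [Set.mem_singleton_iff] at hp
        subst hp; rfl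
    · intro p hp2
      rw [Set.mem_singleton_iff] at hp2
      subst hp2
      show ¬ (Nat.factorial m + 1) ∣ Nat.factorial (Nat.factorial m)
      exact prime_nd hp (Nat.lt_succ_self _)
  have hsf : (Sol {(1, 2)} {(0, 1), (1, 3)} {(2, 3)}).Finite := by
    have hfs : ({m : ℕ | (Nat.factorial m + 1).Prime} ∪ Set.Iio 4).Finite :=
      hfin.union (Set.finite_Iio 4)
    refine (hfs.image (fun m => (![m, Nat.factorial m, Nat.factorial m + 1,
      Nat.factorial (Nat.factorial m)] : Fin 4 → ℕ))).subset ?_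
    intro x hx
    have e1 : Nat.factorial (x 0) = x 1 := hx.2.2.1 (0, 1) (by simp)
    have e2 : Nat.factorial (x 1) = x 3 := hx.2.2.1 (1, 3) (by simp)
    have e3 : x 1 + 1 = x 2 := hx.2.1 (1, 2) (by simp)
    have e4 : ¬ x 2 ∣ x 3 := hx.2.2.2 (2, 3) (by simp)
    refine ⟨x 0, ?_, ?_⟩
    · by_cases h4 : x 0 < 4
      · exact Or.inr h4
      · left
        by_contra hnp
        have hg := fact_gt3 (show 4 ≤ x 0 by omega)
        have h6 := dvd_fact_of_not_prime (by omega) hnp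
        apply e4
        rw [← e2, ← e3, ← e1]
        simpa using h6
    · funext i
      fin_cases i
      · rfl
      · exact e1
      · show Nat.factorial (x 0) + 1 = x 2
        omega
      · show Nat.factorial (Nat.factorial (x 0)) = x 3
        rw [e1, e2]
  have h1 := h _ _ _ hsf _ hmem 1
  have h3 : Nat.factorial m ≤ 720 := h1
  have h4 : Nat.factorial 7 ≤ Nat.factorial m := Nat.factorial_le hm7
  have h5 : Nat.factorial 7 = 5040 := by decide
  omega

theorem part3 (h : {m : ℕ | (Nat.factorial m + 1).Prime}.Infinite) :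
    ∀ A B C : Set (Fin 4 × Fin 4), (Sol A B C).Finite → ∀ x ∈ Sol A B C, ∀ i, x i ≤ 720 := by
  intro A B C hf x hx i
  by_contra hi
  refine not_finite hx (fun N => pres4 x ?_ hx.1 ⟨i, by omega⟩) hf
  intro _ _ _ _ _ N
  obtain ⟨m, hm, hN⟩ := h.exists_gt N
  exact ⟨m, hN, hm⟩

end Pool.Agent.H312Fac
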